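import Mathlib
import Pool.Agent.U663.GR.Red

/-!
# The truncated inequality of Vojta on `ℙ¹ × ℙ¹`: fewer exceptions in balanced boxes

`D` is the divisor of bidegree `(3, 3)` on `ℙ¹ × ℙ¹` over `ℚ` which consists of three different
fibres of each of the two projections over rational points, for instance those over `0`, `1`, `∞`.
The inequality of the conjecture for `D` is
`N^(1)_D (x, y) ≥ h(x) + h(y) - ε (h(x) + h(y)) - C`, a prime which divides both
parts of the equation of `D` being counted once. We bound the number of the points with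
`H(x) ≤ B₁`, `H(y) ≤ B₂` at which even `N^(1)_D (x, y) < h(x) + h(y) + c`, for a given `c`.

The counts of a single line give `(B₁ B₂) ^ (2/3 + ε)` (starting file `BoxExceptions`), and
`B ^ (4/3 + ε)` for `B₁ = B₂ = B`. Here the first bound is divided by `min (B₁, B₂) ^ (2/15)` as long
as it exceeds `max (B₁, B₂)`; for `B₁ = B₂ = B` the number is at most `C B ^ (6/5 + ε)`.

Proof. Let `R` and `R'` be the radicals of the two parts of the equation at the exceptional point `(x, y)`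
and `G` their greatest common divisor; so `R R' / G ≤ C H(x) H(y)`. If `R ≥ H(x)`, then we count
the `x` with given `H(x) = H`, `R = H ^ λ` by the exponents for abc-triples of the team's own hand-in
`MP_7aad9f_nt.ExceptionsBelowTwo`, which are at most `max (2 λ / 3 - 2 / 15, λ - 1)` for `λ ≥ 1`, and
for given `x` the number of `y` is at most `(R' / G) ^ (2/3)` up to small powers, by the counting of
the starting library. The case `R' ≥ H(y)` is the same, and if `R < H(x)`, `R' < H(y)`, then the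
exponent `8 / 15` of abc-triples with `rad (abc) ≤ c` is used for both coordinates.
-/

set_option autoImplicit false

namespace Pool.Agent.Results.MP_542436_nt.BalancedBoxes

open Finset
open Pool.Agent.TH893.PG

/-- Normalised coprime integer coordinates: each point `[x₀ : x₁]` of the projective line over `ℚ`
has exactly one such pair. -/
def Coord (x : ℤ × ℤ) : Prop := IsCoprime x.1 x.2 ∧ (0 < x.2 ∨ x.2 = 0 ∧ 0 < x.1)

/-- The height `max (|x₀|, |x₁|)`; its logarithm is `h(x)`. -/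
def height (x : ℤ × ℤ) : ℕ := max x.1.natAbs x.2.natAbs

/-- `x₀ a₁ - x₁ a₀`, zero if and only if the points `x` and `a` are equal. -/
def wedge (x a : ℤ × ℤ) : ℤ := x.1 * a.2 - x.2 * a.1

/-- The equation of the union of the three fibres over the points `α_i`. -/
def form (α : Fin 3 → ℤ × ℤ) (x : ℤ × ℤ) : ℤ := ∏ i, wedge x (α i)

/-- The sum over the primes `p ∉ S` of `min (log p, v_p(n) log p)`. -/
noncomputable def trunc (S : Finset ℕ) (n : ℤ) : ℝ :=
  ∑ p ∈ n.natAbs.primeFactors \ S, Real.log (p : ℝ)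

/-- The points `P = (x, y)` of `ℙ¹ × ℙ¹` over `ℚ` off the six fibres `s = α_i`, `t = β_j`, of heights
`H(x) ≤ B₁`, `H(y) ≤ B₂`, with `N^(1)_D(P) < h(x) + h(y) + c`. Here
`F(x, y) = ∏ (x ∧ α_i) ∏ (y ∧ β_j)` is the equation of `D`, the local height of `D` at `p` is
`v_p(F(x, y)) log p`, and the primes of `S` are not counted. -/
def Exc (α β : Fin 3 → ℤ × ℤ) (S : Finset ℕ) (c B₁ B₂ : ℝ) : Set ((ℤ × ℤ) × (ℤ × ℤ)) :=
  {P | Coord P.1 ∧ Coord P.2 ∧ form α P.1 * form β P.2 ≠ 0 ∧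
    (height P.1 : ℝ) ≤ B₁ ∧ (height P.2 : ℝ) ≤ B₂ ∧
    trunc S (form α P.1 * form β P.2) <
      Real.log (height P.1) + Real.log (height P.2) + c}

theorem exp_Mx {B₁ B₂ : ℝ} (h1 : 1 ≤ B₁) (h2 : 1 ≤ B₂) :
    Real.exp (Pool.Agent.U663.GR.Mx (Real.log B₁) (Real.log B₂)) ≤
      max ((B₁ * B₂) ^ ((2 : ℝ) / 3) / (min B₁ B₂) ^ ((2 : ℝ) / 15)) (max B₁ B₂) := by
  have p1 : 0 < B₁ := by linarith
  have p2 : 0 < B₂ := by linarith
  have pm : 0 < min B₁ B₂ := lt_min p1 p2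
  unfold Pool.Agent.U663.GR.Mx
  rw [Real.exp_monotone.map_max, Real.exp_monotone.map_max, Real.exp_monotone.map_max,
    Real.exp_log p1, Real.exp_log p2]
  refine max_le_max (max_le ?_ ?_) le_rfl
  · have e : Real.exp (8 * Real.log B₁ / 15 + 2 * Real.log B₂ / 3) =
        (B₁ * B₂) ^ ((2 : ℝ) / 3) / B₁ ^ ((2 : ℝ) / 15) := by
      rw [Real.rpow_def_of_pos (mul_pos p1 p2), Real.rpow_def_of_pos p1, ← Real.exp_sub,
        Real.log_mul p1.ne' p2.ne']
      congr 1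
      ring
    rw [e]
    exact div_le_div_of_nonneg_left (Real.rpow_nonneg (by positivity) _)
      (Real.rpow_pos_of_pos pm _) (Real.rpow_le_rpow pm.le (min_le_left _ _) (by norm_num))
  · have e : Real.exp (2 * Real.log B₁ / 3 + 8 * Real.log B₂ / 15) =
        (B₁ * B₂) ^ ((2 : ℝ) / 3) / B₂ ^ ((2 : ℝ) / 15) := by
      rw [Real.rpow_def_of_pos (mul_pos p1 p2), Real.rpow_def_of_pos p2, ← Real.exp_sub,
        Real.log_mul p1.ne' p2.ne']
      congr 1
      ring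
    rw [e]
    exact div_le_div_of_nonneg_left (Real.rpow_nonneg (by positivity) _)
      (Real.rpow_pos_of_pos pm _) (Real.rpow_le_rpow pm.le (min_le_right _ _) (by norm_num))

/-- **Exceptions to the truncated inequality of Vojta for three and three fibres.** Let
`α_1, α_2, α_3` and `β_1, β_2, β_3` be two triples of different points of the projective line over `ℚ`,
`S` a finite set of primes, `c` real and `ε > 0`.

(1) For all `B₁, B₂ ≥ 1` the number of the points `P = (x, y)` off `D` of heights `H(x) ≤ B₁`,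
`H(y) ≤ B₂` with `N^(1)_D(P) < h(x) + h(y) + c` is at most
`C (B₁ B₂) ^ ε max ((B₁ B₂) ^ (2/3) / min (B₁, B₂) ^ (2/15), max (B₁, B₂))`.

(2) For all `B ≥ 1` the number of these points with `H(x), H(y) ≤ B` is at most `C B ^ (6/5 + ε)`. -/
theorem result (α β : Fin 3 → ℤ × ℤ)
    (_hαc : ∀ i, IsCoprime (α i).1 (α i).2) (_hβc : ∀ j, IsCoprime (β j).1 (β j).2)
    (hα : ∀ i j, i ≠ j → (α i).1 * (α j).2 ≠ (α j).1 * (α i).2)
    (hβ : ∀ i j, i ≠ j → (β i).1 * (β j).2 ≠ (β j).1 * (β i).2) (S : Finset ℕ) (c : ℝ) :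
    (∀ ε : ℝ, 0 < ε → ∃ C : ℝ, 0 < C ∧ ∀ B₁ B₂ : ℝ, 1 ≤ B₁ → 1 ≤ B₂ →
      (Exc α β S c B₁ B₂).Finite ∧ ((Exc α β S c B₁ B₂).ncard : ℝ) ≤ C * (B₁ * B₂) ^ ε *
        max ((B₁ * B₂) ^ ((2 : ℝ) / 3) / (min B₁ B₂) ^ ((2 : ℝ) / 15)) (max B₁ B₂)) ∧
    (∀ ε : ℝ, 0 < ε → ∃ C : ℝ, 0 < C ∧ ∀ B : ℝ, 1 ≤ B →
      ((Exc α β S c B B).ncard : ℝ) ≤ C * B ^ ((6 : ℝ) / 5 + ε)) := by
  classical
  have main : ∀ ε : ℝ, 0 < ε → ∃ C : ℝ, 0 < C ∧ ∀ B₁ B₂ : ℝ, 1 ≤ B₁ → 1 ≤ B₂ →
      (Exc α β S c B₁ B₂).Finite ∧ ((Exc α β S c B₁ B₂).ncard : ℝ) ≤ C * (B₁ * B₂) ^ ε *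
        max ((B₁ * B₂) ^ ((2 : ℝ) / 3) / (min B₁ B₂) ^ ((2 : ℝ) / 15)) (max B₁ B₂) := by
    intro ε hε
    obtain ⟨σ, hσ⟩ : ∃ σ : ℝ, σ = ∑ p ∈ S, Real.log (p : ℝ) := ⟨_, rfl⟩
    have hσ0 : 0 ≤ σ := by
      rw [hσ]; exact Finset.sum_nonneg fun p _ => Real.log_natCast_nonneg p
    obtain ⟨D, hD, h⟩ := Pool.Agent.U663.GR.boxL (FL α hα) (FL β hβ) (|c| + σ) ε
      (by positivity) hε
    refine ⟨D, hD, fun B₁ B₂ hB₁ hB₂ => fin_of fun F hF => ?_⟩
    have hB₁0 : 0 < B₁ := by linarith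
    have hB₂0 : 0 < B₂ := by linarith
    refine (h (Real.log B₁) (Real.log B₂) (Real.log_nonneg hB₁) (Real.log_nonneg hB₂) F
      fun P hP => ?_).trans ?_
    · obtain ⟨a1, a2, a3, a4, a5, a6⟩ := hF (Finset.mem_coe.2 hP)
      have b1 : pw α P.1 ≠ 0 := left_ne_zero_of_mul a3
      have b2 : pw β P.2 ≠ 0 := right_ne_zero_of_mul a3
      have p1 := pt_of α hα a1.1 b1
      have p2 := pt_of β hβ a2.1 b2
      have k1 := Pool.Agent.TH867.QF.ht_pos p1
      have k2 := Pool.Agent.TH867.QF.ht_pos p2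
      refine ⟨p1, p2, Real.log_le_log (by exact_mod_cast k1) a4,
        Real.log_le_log (by exact_mod_cast k2) a5, ?_⟩
      have h1 : Pool.Agent.U663.GR.unL (FL α hα) (FL β hβ) P ≤
          lS S (pw α P.1 * pw β P.2) + ∑ p ∈ S, Real.log (p : ℝ) :=
        union_le α β hα hβ S b1 b2
      rw [← hσ] at h1
      have h2 : lS S (pw α P.1 * pw β P.2) < Real.log (Pool.Agent.TH867.QF.ht P.1) +
          Real.log (Pool.Agent.TH867.QF.ht P.2) + c := a6
      have h3 := le_abs_self c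
      linarith
    · have e1 : Real.exp (Pool.Agent.U663.GR.Mx (Real.log B₁) (Real.log B₂) +
          ε * (Real.log B₁ + Real.log B₂)) =
          (B₁ * B₂) ^ ε * Real.exp (Pool.Agent.U663.GR.Mx (Real.log B₁) (Real.log B₂)) := by
        rw [Real.rpow_def_of_pos (mul_pos hB₁0 hB₂0), Real.log_mul hB₁0.ne' hB₂0.ne', ← Real.exp_add]
        congr 1
        ring
      rw [e1, ← mul_assoc]
      exact mul_le_mul_of_nonneg_left (exp_Mx hB₁ hB₂) (by positivity)
  refine ⟨main, fun ε hε => ?_⟩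
  obtain ⟨C, hC, h⟩ := main (ε / 2) (half_pos hε)
  refine ⟨C, hC, fun B hB => ?_⟩
  have hB0 : 0 < B := by linarith
  refine (h B B hB hB).2.trans (le_of_eq ?_)
  rw [min_self, max_self]
  have e1 : (B * B) ^ ((2 : ℝ) / 3) / B ^ ((2 : ℝ) / 15) = B ^ ((6 : ℝ) / 5) := by
    rw [Real.mul_rpow hB0.le hB0.le, ← Real.rpow_add hB0, ← Real.rpow_sub hB0]
    congr 1
    norm_num
  have e2 : (B * B) ^ (ε / 2) = B ^ ε := by
    rw [Real.mul_rpow hB0.le hB0.le, ← Real.rpow_add hB0]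
    congr 1
    ring
  have e3 : B ≤ B ^ ((6 : ℝ) / 5) := by
    calc B = B ^ (1 : ℝ) := (Real.rpow_one B).symm
      _ ≤ _ := Real.rpow_le_rpow_of_exponent_le hB (by norm_num)
  rw [e1, e2, max_eq_left e3, mul_assoc, ← Real.rpow_add hB0, add_comm ε]

end Pool.Agent.Results.MP_542436_nt.BalancedBoxes
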