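import Pool.Agent.U536.DS.Pairs
import Pool.Agent.Results.MP_542436_nt.MultiplicativeValues

/-!
# Vojta's inequality on `ℙ¹ × ℙ¹` near pairs of integral combinations of two divisors of the values of two multiplicative
functions

The points `(P, Q)` of `ℙ¹ × ℙ¹`, of all heights, such that the conductors `exp N^(1)(a, P)` and `exp N^(1)(b, Q)` are near
integers `w_0`, `w_1 ≥ exp ((log N)^b₁)` of the form `w_i = u e + u' e'` with divisors `e`, `e'` of `F_i(m_i)` and integers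
`|u|, |u'| ≤ exp ((log N)^μ)`, where `w_i ≥ w_j^ρ` and `F_0`, `F_1` are two positive multiplicative functions of at most
polynomial growth, with `F_i p ≤ M p` and injective at the large primes, for example Euler's function. For all pairs
`(m_0, m_1)`, `m_i ≤ N`, but `N² exp (-(log N)^c)`, ALL of these points, for ALL such pairs `(w_0, w_1)`, satisfy the
inequality with truncated counting function, if `b₁ < 1`, `μ < b₁`, `0 ≤ c < 2 b₁ - 1`. The pairs `(w_0, w_1)` include all pairs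
of comparable size of large sums and differences `w_i` of ANY two divisors of `F_i(m_i)`.

Proof. But for few exceptional `m ≤ N`, the number of `m` with `g ∣ F(m)` is at most `N τ_J(g) / g` up to a factor
`exp ((log N)^s)`, `J = (log N)^a`, `a < s < b₁`, for all `g`: write `m = k v` with `v` squarefree and composed of primes larger
than `N^(1/J)`, `k ≤ exp (4 (log N)^a)`. Take for `g` the least common multiples of the pairs `(e, e')`: the sum of `1 / [e, e']`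
over the pairs `e, e' ≤ X` with `u e + u' e' = w` is at most `4 U (1 + log X) τ(w) / w` if `|u|, |u'| ≤ U`. The pairs of
integers near the conductors of an exceptional point have a power saving, and the inequality `τ_J^q ≤ τ_K` for `K ≥ J^q` with
Hölder's inequality bounds the sum over the pairs of pairs of divisors. The pairs of the hand-in `CommonFactors` of this page
have large common factors with the `F_i(m_i)`; the sums and differences of two divisors of `F_i(m_i)` have in general none. The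
file `MultiplicativeValues` of the starting library treats the pairs `w = (F_0(m_0), F_1(m_1))` only, with `N² / (log N)^U`
exceptions.
-/

set_option autoImplicit false

namespace Pool.Agent.Results.MP_542436_nt.DivisorSums

open NumberField IsDedekindDomain
open Pool.Agent.N733.TG (LM)
open Pool.Agent.U536.DS (CombT combT_pm comb_pairs)
open GridAlmostAllPoints (P1 height count countD biform)
open Pool.Agent.Results.MP_542436_nt.MultiplicativeValues (VojtaForAllDivisors Bad bad_eq)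

/-- **Vojta's inequality on `ℙ¹ × ℙ¹` near pairs of integral combinations of two divisors of the values of two multiplicative
functions.** Let `K` be a number field, `S` a finite set of primes, `q, r ≥ 3` and `a_1, …, a_q`, `b_1, …, b_r` different points
of the projective line over `K`. For every `ε > 0` there are `η > 0` and `ρ < 1` such that for all functions `F_0`, `F_1` in the
class `LM`, all `b₁ < 1`, `μ < b₁`, `0 ≤ c < 2 b₁ - 1` and all large `N`, for all pairs `(m_0, m_1)`, `m_i ≤ N`, but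
`N² exp (-(log N)^c)`, for EVERY pair of integers `w_0`, `w_1 ≥ exp ((log N)^b₁)` of the form `w_i = u e + u' e'` with divisors
`e`, `e'` of `F_i(m_i)` and integers `|u|, |u'| ≤ exp ((log N)^μ)`, with `w_i ≥ w_j^ρ`: ALL points `(P, Q)` off the fibres over
`K` with `|exp N^(1)(a, P) - w_0| ≤ w_0^(1 - 2/q + η)` and `|exp N^(1)(b, Q) - w_1| ≤ w_1^(1 - 2/r + η)` satisfy
`N^(1)_D(P, Q) ≥ (q - ε) h(P) + (r - ε) h(Q)` for EVERY divisor `D`, of any bidegree, which contains the fibres but not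
`(P, Q)`. Euler's function and the sum of divisors are in the class `LM`, and the pairs of sums and differences
`w_i ≥ exp ((log N)^b₁)` of two divisors of `F_i(m_i)` with `w_j^ρ ≤ w_i` are such pairs. -/
theorem result (K : Type) [Field K] [NumberField K] (S : Set (HeightOneSpectrum (𝓞 K)))
    (hS : S.Finite) (q r : ℕ) (hq : 3 ≤ q) (hr : 3 ≤ r) (a : Fin q → P1 K) (b : Fin r → P1 K)
    (ha : Function.Injective a) (hb : Function.Injective b) :
    (∀ ε : ℝ, 0 < ε → ∃ η ρ : ℝ, 0 < η ∧ 0 < ρ ∧ ρ < 1 ∧ ∀ F : Fin 2 → ℕ → ℕ, (∀ i, LM (F i)) →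
      ∀ b₁ μ c : ℝ, μ < b₁ → b₁ < 1 → 0 ≤ c → c < 2 * b₁ - 1 → ∃ N₀ : ℕ, ∀ N : ℕ, N₀ ≤ N →
      ({m : Fin 2 → ℕ | (∀ i, 1 ≤ m i ∧ m i ≤ N) ∧ ¬ ∀ w : Fin 2 → ℕ, CombT F b₁ μ ρ N m w →
        ∀ P Q : P1 K, (∀ i, P ≠ a i) → (∀ j, Q ≠ b j) →
        |Real.exp (count S a P) - w 0| ≤ (w 0 : ℝ) ^ (1 - 2 / (q : ℝ) + η) →
        |Real.exp (count S b Q) - w 1| ≤ (w 1 : ℝ) ^ (1 - 2 / (r : ℝ) + η) →
          VojtaForAllDivisors S a b ε P Q}.ncard : ℝ) ≤ (N : ℝ) ^ 2 * Real.exp (-(Real.log N ^ c))) ∧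
    (LM Nat.totient ∧ LM (fun m => ∑ d ∈ m.divisors, d)) ∧
    ∀ (F : Fin 2 → ℕ → ℕ) (b₁ μ ρ : ℝ) (N : ℕ) (m w : Fin 2 → ℕ), (∀ i, Real.exp (Real.log N ^ b₁) ≤ (w i : ℝ)) →
      (∀ i, ∃ s t : ℕ, s ∣ F i (m i) ∧ t ∣ F i (m i) ∧ (w i = s + t ∨ w i = s - t ∨ w i = s)) →
      (∀ i j, (w j : ℝ) ^ ρ ≤ (w i : ℝ)) → CombT F b₁ μ ρ N m w := by
  obtain ⟨hcount, hexc⟩ := GridAlmostAllPoints.result K S hS q r hq hr a b ha hb
  refine ⟨?_, ⟨Pool.Agent.N733.TG.lm_totient, Pool.Agent.N733.TG.lm_sigma⟩,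
    fun F b₁ μ ρ N m w h1 h2 h3 => combT_pm h1 h2 h3⟩
  intro ε hε
  obtain ⟨ν, X₀, hν, hX₀⟩ := hexc ε hε
  have hqr : (3 : ℝ) ≤ q := by exact_mod_cast hq
  have hrr : (3 : ℝ) ≤ r := by exact_mod_cast hr
  have hq0 : (0 : ℝ) < 2 / q := by positivity
  have hr0 : (0 : ℝ) < 2 / r := by positivity
  have hq1 : 2 / (q : ℝ) ≤ 1 := by rw [div_le_one (by linarith)]; linarith
  have hr1 : 2 / (r : ℝ) ≤ 1 := by rw [div_le_one (by linarith)]; linarith
  obtain ⟨ν₁, hν₁⟩ : ∃ ν₁ : ℝ, ν₁ = min ν (min (2 / (q : ℝ)) (2 / (r : ℝ))) := ⟨_, rfl⟩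
  have hν₁0 : 0 < ν₁ := by rw [hν₁]; exact lt_min hν (lt_min hq0 hr0)
  have hν₁ν : ν₁ ≤ ν := by rw [hν₁]; exact min_le_left _ _
  have hν₁q : ν₁ ≤ 2 / (q : ℝ) := by rw [hν₁]; exact (min_le_right _ _).trans (min_le_left _ _)
  have hν₁r : ν₁ ≤ 2 / (r : ℝ) := by rw [hν₁]; exact (min_le_right _ _).trans (min_le_right _ _)
  obtain ⟨⟨C, hC⟩, -⟩ := hcount (ν₁ / 8) (by positivity)
  obtain ⟨ρ, hρ⟩ : ∃ ρ : ℝ, ρ = 2 / (q : ℝ) + 2 / (r : ℝ) + ν₁ / 4 - ν₁ := ⟨_, rfl⟩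
  have hρ0 : 0 ≤ ρ := by rw [hρ]; linarith
  obtain ⟨B, hB⟩ : ∃ B : ℝ, B = max X₀ 1 := ⟨_, rfl⟩
  have hB1 : 1 ≤ B := by rw [hB]; exact le_max_right _ _
  have hBX : X₀ ≤ B := by rw [hB]; exact le_max_left _ _
  refine ⟨ν₁ / 8, 1 - ν₁ / 8, by positivity, by linarith, by linarith, fun F hF b₁ μ c hμ hb₁ hc hcb => ?_⟩
  obtain ⟨N₀, hN₀⟩ := comb_pairs (Bad S a b ε) (fun z => Real.exp (count S a z.1))
    (fun z => Real.exp (count S b z.2)) (ρ := ρ) (κ₁ := 1 - 2 / (q : ℝ) + ν₁ / 8) (κ₂ := 1 - 2 / (r : ℝ) + ν₁ / 8) hρ0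
    (by linarith) (by linarith) (by linarith) (by linarith) (ρ' := 1 - ν₁ / 8) (by linarith) (by linarith)
    (by rw [hρ]; linarith) (C * B ^ ρ) (fun X hX => by
      obtain ⟨Z, hZ⟩ : ∃ Z : ℝ, Z = B * X := ⟨_, rfl⟩
      have hZX : X ≤ Z := by rw [hZ]; nlinarith
      have hZB : B ≤ Z := by rw [hZ]; nlinarith
      have hZ1 : 1 ≤ Z := hX.trans hZX
      obtain ⟨k1, k2⟩ := hC Z Z hZ1 hZ1
      have hfinZ : {z | z ∈ Bad S a b ε ∧ Real.exp (count S a z.1) ≤ Z ∧ Real.exp (count S b z.2) ≤ Z}.Finite := by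
        rw [bad_eq S a b ε (by linarith : 0 < Z)]
        exact k1.subset (fun z hz => hz.1)
      have hsub : {z | z ∈ Bad S a b ε ∧ Real.exp (count S a z.1) ≤ X ∧ Real.exp (count S b z.2) ≤ X} ⊆
          {z | z ∈ Bad S a b ε ∧ Real.exp (count S a z.1) ≤ Z ∧ Real.exp (count S b z.2) ≤ Z} := by
        rintro z ⟨g1, g2, g3⟩
        exact ⟨g1, g2.trans hZX, g3.trans hZX⟩
      refine ⟨hfinZ.subset hsub, ?_⟩
      have h1 : ({z | z ∈ Bad S a b ε ∧ Real.exp (count S a z.1) ≤ X ∧ Real.exp (count S b z.2) ≤ X}.ncard : ℝ) ≤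
          ({z | z ∈ Bad S a b ε ∧ Real.exp (count S a z.1) ≤ Z ∧ Real.exp (count S b z.2) ≤ Z}.ncard : ℝ) := by
        exact_mod_cast Set.ncard_le_ncard hsub hfinZ
      refine h1.trans ?_
      rw [bad_eq S a b ε (by linarith : 0 < Z)]
      have h2 := hX₀ Z Z (hBX.trans hZB) (hBX.trans hZB)
      rw [min_self] at h2
      have h3 : Z ^ (-ν) ≤ Z ^ (-ν₁) := Real.rpow_le_rpow_of_exponent_le hZ1 (by linarith)
      calc ((GridAlmostAllPoints.Exceptions S a b ε Z Z).ncard : ℝ)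
          ≤ Z ^ (-ν) * ((GridAlmostAllPoints.Points S a b Z Z).ncard : ℝ) := h2
        _ ≤ Z ^ (-ν₁) * (C * (Z ^ (2 / (q : ℝ) + ν₁ / 8) * Z ^ (2 / (r : ℝ) + ν₁ / 8))) :=
            mul_le_mul h3 k2 (Nat.cast_nonneg _) (by positivity)
        _ = C * (Z ^ (-ν₁) * (Z ^ (2 / (q : ℝ) + ν₁ / 8) * Z ^ (2 / (r : ℝ) + ν₁ / 8))) := by ring
        _ = C * Z ^ ρ := by
            rw [← Real.rpow_add (by linarith), ← Real.rpow_add (by linarith), hρ]
            congr 2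
            ring
        _ = C * B ^ ρ * X ^ ρ := by
            rw [hZ, Real.mul_rpow (by linarith) (by linarith)]
            ring) hF hμ hb₁ hc hcb
  refine ⟨N₀, fun N hN => le_trans ?_ (hN₀ N hN)⟩
  have hfin : {m : Fin 2 → ℕ | (∀ i, 1 ≤ m i ∧ m i ≤ N) ∧ ¬ ∀ w : Fin 2 → ℕ, CombT F b₁ μ (1 - ν₁ / 8) N m w →
      ∀ z ∈ Bad S a b ε, |Real.exp (count S a z.1) - w 0| ≤ (w 0 : ℝ) ^ (1 - 2 / (q : ℝ) + ν₁ / 8) →
      ¬ |Real.exp (count S b z.2) - w 1| ≤ (w 1 : ℝ) ^ (1 - 2 / (r : ℝ) + ν₁ / 8)}.Finite := by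
    refine (Set.Finite.pi' (fun _ : Fin 2 => Set.finite_Icc 1 N)).subset ?_
    intro m hm i
    exact hm.1 i
  refine Nat.cast_le.2 (Set.ncard_le_ncard ?_ hfin)
  rintro m ⟨h1, h2⟩
  refine ⟨h1, fun h3 => h2 fun w hw P Q hP hQ h4 h5 => ?_⟩
  by_contra h6
  exact h3 w hw (P, Q) ⟨hP, hQ, h6⟩ h4 h5

end Pool.Agent.Results.MP_542436_nt.DivisorSums
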