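import Mathlib
import Pool.Agent.U168.PP.Main

set_option autoImplicit false

/-!
# The truncated Vojta conjecture on `ℙ¹ × ℙ¹`: lower bounds for the error term

`D = {F = 0}` is a divisor of bidegree `(q, r)` over a number field `K`, with normal crossings or not.
We show that, outside any proper closed subset `Z`, the term `ε (h(α) + h(β))` of the conjecture
cannot be replaced by `κ √h / log h`, `h = h(α) + h(β)`, in two cases:

1. `D` contains three fibres of a projection over `K`-rational points, `κ < 6.84 [K : ℚ]`;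
2. `D` contains a fibre over a `K`-rational point and has (at least) double points at two `K`-rational
   points which are not on this fibre and not on a common fibre of one of the projections (in suitable
   coordinates these are `([0 : 1], [0 : 1])` and `([1 : 0], [1 : 0])`), `κ < 6.84 [K : ℚ] / √2`. The rest
   of `D` may be any curve with two rational nodes.

In the second case the points lie on the curves of bidegree `(1, 1)` through the two double points:
such a curve meets `D` in at most `q + r - 2` points, and three of them (the double points and the point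
on the fibre) are rational.
-/

namespace Pool.Agent.Results.MP_542436_nt.ErrorTerm

open NumberField IsDedekindDomain

section

variable {K : Type} [Field K] [NumberField K]

/-- `F` is bihomogeneous of bidegree `(q, r)` in the two pairs of variables -/
def Bihomogeneous (F : MvPolynomial (Fin 2 ⊕ Fin 2) K) (q r : ℕ) : Prop :=
  F.IsWeightedHomogeneous
    (Sum.elim (fun _ : Fin 2 => ((1, 0) : ℕ × ℕ)) (fun _ : Fin 2 => ((0, 1) : ℕ × ℕ))) (q, r)

/-- the value of `F` at the point with the coordinates `s`, `t` -/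
noncomputable def value (F : MvPolynomial (Fin 2 ⊕ Fin 2) K) (s t : Fin 2 → K) : K :=
  MvPolynomial.eval (Sum.elim s t) F

/-- the equation `s₀ a₁ - s₁ a₀` of the fibre of the first projection over the point `[a₀ : a₁]` -/
noncomputable def fibre (a : Fin 2 → K) : MvPolynomial (Fin 2 ⊕ Fin 2) K :=
  MvPolynomial.X (Sum.inl 0) * MvPolynomial.C (a 1) -
    MvPolynomial.X (Sum.inl 1) * MvPolynomial.C (a 0)

/-- the truncated counting function of `D = {F = 0}` at the point with the coordinates `s`, `t`, with
the local heights `-log (|F(s, t)|_v / (max |s_i|_v ^ q max |t_j|_v ^ r))` -/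
noncomputable def counting (F : MvPolynomial (Fin 2 ⊕ Fin 2) K) (q r : ℕ) (s t : Fin 2 → K) : ℝ :=
  ∑ᶠ v : HeightOneSpectrum (𝓞 K), min (Real.log (Ideal.absNorm v.asIdeal : ℝ))
    (-Real.log (FinitePlace.mk v (value F s t) /
      (max (FinitePlace.mk v (s 0)) (FinitePlace.mk v (s 1)) ^ q *
        max (FinitePlace.mk v (t 0)) (FinitePlace.mk v (t 1)) ^ r)))

/-- the height `h_K` relative to `K` -/
noncomputable def heightK (x : Fin 2 → K) : ℝ := Height.logHeight x

/-- the absolute height of the point with the coordinates `s`, `t`: `h(s) + h(t)`, `h = h_K / [K : ℚ]` -/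
noncomputable def height (s t : Fin 2 → K) : ℝ :=
  (heightK s + heightK t) / (Module.finrank ℚ K : ℝ)

/-- outside each proper closed subset (contained in the zeros of a nonzero bihomogeneous form `G`) there
are points off `D = {F = 0}`, of height as large as one likes, which violate the truncated inequality with
`κ √h / log h` instead of the term `ε h` -/
def Violated (F : MvPolynomial (Fin 2 ⊕ Fin 2) K) (q r : ℕ) (κ : ℝ) : Prop :=
  ∀ (G : MvPolynomial (Fin 2 ⊕ Fin 2) K) (b c : ℕ), G ≠ 0 → Bihomogeneous G b c → ∀ B : ℝ,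
    ∃ s t : Fin 2 → K, s ≠ 0 ∧ t ≠ 0 ∧ value G s t ≠ 0 ∧ value F s t ≠ 0 ∧ B ≤ height s t ∧
      counting F q r s t + κ * √(height s t) / Real.log (height s t) ≤
        ((q : ℝ) - 2) * heightK s + ((r : ℝ) - 2) * heightK t

end

open Pool.Agent.U168.VJ Pool.Agent.U168.PP in
/-- the comparison -/
lemma violated_of (K : Type) [Field K] [NumberField K] (F : MvPolynomial (Fin 2 ⊕ Fin 2) K)
    (q r : ℕ) (m κ : ℝ) (hm : 1 ≤ m)
    (hκ : κ < 6.84 * (Module.finrank ℚ K : ℝ) / m * m ^ ((1 : ℝ) - 1 / 2))
    (h : ∀ (G : MvPolynomial (Fin 2 ⊕ Fin 2) K) (b c : ℕ), G ≠ 0 → Bihomogeneous G b c →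
      ∃ A1 A2 C : ℝ, ∀ B : ℝ, ∃ (s u : Fin 2 → K) (t : ℝ), B ≤ t ∧
        MvPolynomial.eval (Sum.elim s u) F ≠ 0 ∧ MvPolynomial.eval (Sum.elim s u) G ≠ 0 ∧
        s ≠ 0 ∧ u ≠ 0 ∧
        Height.logHeight s + Height.logHeight u ≤ m * ((Height.totalWeight K : ℝ) * t) + A1 ∧
        m * ((Height.totalWeight K : ℝ) * t) - A2 ≤ Height.logHeight s + Height.logHeight u ∧
        cnt F q r s u + (Height.totalWeight K : ℝ) * (6.84 * √t / Real.log t) ≤
          ((q : ℝ) - 2) * Height.logHeight s + ((r : ℝ) - 2) * Height.logHeight u + C) :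
    Violated F q r κ := by
  intro G b c hG hGd B
  obtain ⟨A1, A2, C, hmain⟩ := h G b c hG hGd
  set D : ℝ := (Module.finrank ℚ K : ℝ) with hD
  have hDw : ((Height.totalWeight K : ℕ) : ℝ) = D := by
    rw [hD, ← Pool.Agent.W231.V.sum_mult]
    exact_mod_cast (InfinitePlace.sum_mult_eq (K := K))
  have hD1 : 1 ≤ D := by
    rw [hD]
    exact_mod_cast (Module.finrank_pos : 0 < Module.finrank ℚ K)
  have hD0 : 0 < D := by linarith
  have hm0 : 0 < m := by linarith
  obtain ⟨t0, ht0⟩ := Filter.eventually_atTop.1 (compare (a := 1 / 2) (D := m)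
    (k0 := 6.84 * D / m) (κ := κ) (C := C) (a1 := A1 / D) (a2 := A2 / D) (by norm_num)
    (by norm_num) hm (by positivity) hκ)
  obtain ⟨s, u, t, hBt, hF, hG', hs, hu, hup, hlow, hsum⟩ :=
    hmain (max (max t0 0) (|B| + |A2 / D|))
  rw [hDw] at hup hlow hsum
  have hh1 : height s u ≤ m * t + A1 / D := by
    unfold height heightK
    rw [div_le_iff₀ hD0]
    have : (m * t + A1 / D) * D = m * (D * t) + A1 := by field_simp
    rw [this]
    exact hup
  have hh2 : m * t - A2 / D ≤ height s u := by
    unfold height heightK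
    rw [le_div_iff₀ hD0]
    have : (m * t - A2 / D) * D = m * (D * t) - A2 := by field_simp
    rw [this]
    exact hlow
  have hcomp := ht0 t ((le_max_left _ _).trans ((le_max_left _ _).trans hBt)) (height s u) hh1 hh2
  have ht00 : 0 ≤ t := (le_max_right _ _).trans ((le_max_left _ _).trans hBt)
  refine ⟨s, u, hs, hu, hG', hF, ?_, ?_⟩
  · have h1 := (le_max_right _ _).trans hBt
    have h2 := le_abs_self B
    have h3 := le_abs_self (A2 / D)
    have h4 : t ≤ m * t := le_mul_of_one_le_left ht00 hm
    linarith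
  · have h1 : counting F q r s u = cnt F q r s u := rfl
    have h2 : m * (6.84 * D / m * t ^ ((1 : ℝ) / 2) / Real.log t) =
        D * (6.84 * √t / Real.log t) := by
      rw [Real.sqrt_eq_rpow]
      field_simp
    rw [h2, ← Real.sqrt_eq_rpow] at hcomp
    rw [h1]
    unfold heightK
    linarith

open Pool.Agent.U168.VJ Pool.Agent.U168.PP in
/-- **Lower bounds for the error term.** Let `D = {F = 0}` be a divisor of bidegree `(q, r)` on
`ℙ¹ × ℙ¹` over the number field `K`.
(1) If `D` contains the fibres over three different `K`-points of the first factor, then the inequality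
with `κ √h / log h` is violated for every `κ < 6.84 [K : ℚ]`.
(2) If `D` contains the fibre over a point `[e₀ : e₁]` with `e₀, e₁ ≠ 0` and has multiplicity at least two
at the points `([0 : 1], [0 : 1])` and `([1 : 0], [1 : 0])`, then it is violated for every
`κ < 6.84 [K : ℚ] / √2`. -/
theorem result (K : Type) [Field K] [NumberField K] (F : MvPolynomial (Fin 2 ⊕ Fin 2) K) (q r : ℕ)
    (hF : F ≠ 0) (hFd : Bihomogeneous F q r) :
    (∀ a : Fin 3 → Fin 2 → K, (∀ i j, i ≠ j → a i 0 * a j 1 - a i 1 * a j 0 ≠ 0) →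
      (∏ i, fibre (a i)) ∣ F → ∀ κ < 6.84 * (Module.finrank ℚ K : ℝ), Violated F q r κ) ∧
    (∀ e : Fin 2 → K, e 0 ≠ 0 → e 1 ≠ 0 → fibre e ∣ F →
      (∀ m ∈ F.support, 2 ≤ m (Sum.inl 0) + m (Sum.inr 0)) →
      (∀ m ∈ F.support, 2 ≤ m (Sum.inl 1) + m (Sum.inr 1)) →
      ∀ κ < 6.84 * (Module.finrank ℚ K : ℝ) / √2, Violated F q r κ) := by
  refine ⟨fun a ha hdiv κ hκ => ?_, fun e he0 he1 hdiv hm0 hm1 κ hκ => ?_⟩
  · refine violated_of K F q r 1 κ le_rfl (by rw [div_one, Real.one_rpow, mul_one]; exact hκ) ?_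
    intro G b c hG hGd
    obtain ⟨A1, A2, C, h⟩ := part1 F hF hFd a ha hdiv G hG hGd
    refine ⟨A1, A2, C, fun B => ?_⟩
    simpa only [one_mul] using h B
  · refine violated_of K F q r 2 κ one_le_two ?_ ?_
    · have h1 : (2 : ℝ) ^ ((1 : ℝ) - 1 / 2) = √2 := by
        rw [Real.sqrt_eq_rpow]; norm_num
      have h2 : (√2) * √2 = 2 := Real.mul_self_sqrt (by norm_num)
      have h3 : 0 < √2 := by positivity
      rw [h1]
      refine lt_of_lt_of_eq hκ ?_
      rw [div_eq_iff h3.ne']
      have : 6.84 * (Module.finrank ℚ K : ℝ) / 2 * √2 * √2 =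
          6.84 * (Module.finrank ℚ K : ℝ) / 2 * (√2 * √2) := by ring
      rw [this, h2]
      ring
    · intro G b c hG hGd
      exact part2 F hF hFd e he0 he1 hdiv hm0 hm1 G hG hGd

end Pool.Agent.Results.MP_542436_nt.ErrorTerm
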